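import Pool.Agent.Run7.h943.FP.Stm

/-! MP_de94ef_pr (helper943), piece DIR (helper216). -/

set_option autoImplicit false
open MeasureTheory ProbabilityTheory Filter Set
open scoped ENNReal Pointwise Topology

namespace Pool.Agent.Run7.h216.FP

open Pool.Agent.N662.FP Run7.h943.FP

theorem t_DIR : S_DIR := by
  intro μ hμ
  have hcont : Continuous μ := by
    have h1 := μ.convexOn.continuousOn isOpen_univ
    rwa [continuousOn_univ] at h1
  let K : Set (ℝ × ℝ) := {x | x.1 ^ 2 + x.2 ^ 2 = 1}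
  have hKc : IsCompact K := by
    apply Metric.isCompact_of_isClosed_isBounded
    · exact isClosed_eq (by fun_prop) continuous_const
    · apply (Metric.isBounded_closedBall (x := (0 : ℝ × ℝ)) (r := 1)).subset
      intro x hx
      have hx' : x.1 ^ 2 + x.2 ^ 2 = 1 := hx
      rw [mem_closedBall_zero_iff, Prod.norm_def, max_le_iff, Real.norm_eq_abs, Real.norm_eq_abs,
        ← sq_le_one_iff_abs_le_one, ← sq_le_one_iff_abs_le_one]
      constructor <;> nlinarith [sq_nonneg x.1, sq_nonneg x.2]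
  have hKn : K.Nonempty := ⟨(1, 0), by show (1 : ℝ) ^ 2 + (0 : ℝ) ^ 2 = 1; norm_num⟩
  obtain ⟨y, hy, hmin⟩ := hKc.exists_isMinOn hKn hcont.continuousOn
  have hy1 : y.1 ^ 2 + y.2 ^ 2 = 1 := hy
  have hy0 : y ≠ 0 := by
    rintro rfl
    simp at hy1
  refine ⟨y, μ y, hy1, ?_, rfl, ?_⟩
  · rcases (apply_nonneg μ y).lt_or_eq with h | h
    · exact h
    · exact absurd (hμ y h.symm) hy0
  · intro x
    have he : eu x ^ 2 = x.1 ^ 2 + x.2 ^ 2 := Real.sq_sqrt (by positivity)
    rcases (Real.sqrt_nonneg (x.1 ^ 2 + x.2 ^ 2)).lt_or_eq with h | h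
    · have h0 : 0 < eu x := h
      have h1 : ((eu x)⁻¹ • x) ∈ K := by
        show ((eu x)⁻¹ * x.1) ^ 2 + ((eu x)⁻¹ * x.2) ^ 2 = 1
        rw [mul_pow, mul_pow, ← mul_add, ← he, ← mul_pow, inv_mul_cancel₀ h0.ne', one_pow]
      have h2 : μ y ≤ μ ((eu x)⁻¹ • x) := hmin h1
      rw [map_smul_eq_mul, Real.norm_of_nonneg (inv_nonneg.2 h0.le)] at h2
      calc μ y * eu x ≤ ((eu x)⁻¹ * μ x) * eu x := mul_le_mul_of_nonneg_right h2 h0.le
        _ = μ x := by field_simp
    · have h0 : eu x = 0 := h.symm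
      rw [h0, mul_zero]
      exact apply_nonneg μ x

end Pool.Agent.Run7.h216.FP
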