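import Pool.Agent.Run7.h943.FP.Stm

/-! MP_de94ef_pr (helper943), piece GEO (helper216). `card_strip`, `card_tube` are copied from
`Pool/Agent/W822/Tube.lean`. -/

set_option autoImplicit false
open MeasureTheory ProbabilityTheory Filter Set
open scoped ENNReal Pointwise Topology

namespace Pool.Agent.Run7.h216.FP

open Pool.Agent.N662.FP Run7.h943.FP

lemma card_strip (R : ℕ) (s c w : ℝ) (hs : 1 / 2 ≤ |s|) (hw : 0 ≤ w) :
    (((Finset.Icc (-(R : ℤ)) R).filter (fun k : ℤ => |(k : ℝ) * s - c| ≤ w)).card : ℝ) ≤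
      4 * w + 1 := by
  have hs0 : s ≠ 0 := by
    rintro rfl
    simp at hs
    linarith
  have hsub : (Finset.Icc (-(R : ℤ)) R).filter (fun k : ℤ => |(k : ℝ) * s - c| ≤ w) ⊆
      Finset.Icc ⌈c / s - 2 * w⌉ ⌊c / s + 2 * w⌋ := by
    intro k hk
    rw [Finset.mem_filter] at hk
    have h1 : |(k : ℝ) - c / s| * |s| ≤ w := by
      rw [← abs_mul, sub_mul, div_mul_cancel₀ _ hs0]
      exact hk.2
    have h2 : |(k : ℝ) - c / s| ≤ 2 * w := by
      have := abs_nonneg ((k : ℝ) - c / s)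
      nlinarith
    rw [abs_le] at h2
    rw [Finset.mem_Icc, Int.ceil_le, Int.le_floor]
    constructor <;> linarith
  have h1 := Finset.card_le_card hsub
  have h2 : ((Finset.Icc ⌈c / s - 2 * w⌉ ⌊c / s + 2 * w⌋).card : ℝ) ≤ 4 * w + 1 := by
    rw [Int.card_Icc]
    have h3 := Int.le_ceil (c / s - 2 * w)
    have h4 := Int.floor_le (c / s + 2 * w)
    rcases le_total 0 (⌊c / s + 2 * w⌋ + 1 - ⌈c / s - 2 * w⌉) with h0 | h0
    · have h5 : (((⌊c / s + 2 * w⌋ + 1 - ⌈c / s - 2 * w⌉).toNat : ℤ) : ℝ) =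
          (⌊c / s + 2 * w⌋ + 1 - ⌈c / s - 2 * w⌉ : ℤ) := by
        rw [Int.toNat_of_nonneg h0]
      have h6 : ((⌊c / s + 2 * w⌋ + 1 - ⌈c / s - 2 * w⌉).toNat : ℝ) =
          (⌊c / s + 2 * w⌋ : ℝ) + 1 - ⌈c / s - 2 * w⌉ := by
        rw [← Int.cast_natCast, h5]; push_cast; ring
      rw [h6]
      linarith
    · rw [Int.toNat_of_nonpos h0]
      simp
      linarith
  have h3 : (((Finset.Icc (-(R : ℤ)) R).filter (fun k : ℤ => |(k : ℝ) * s - c| ≤ w)).card : ℝ) ≤
      ((Finset.Icc ⌈c / s - 2 * w⌉ ⌊c / s + 2 * w⌋).card : ℝ) := by exact_mod_cast h1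
  exact h3.trans h2

lemma card_I (R : ℕ) : ((Finset.Icc (-(R : ℤ)) R).card : ℝ) = 2 * R + 1 := by
  have : ((Finset.Icc (-(R : ℤ)) R).card : ℤ) = 2 * R + 1 := by
    rw [Int.card_Icc, Int.toNat_of_nonneg (by omega)]
    ring
  exact_mod_cast this

lemma mem_tube {y : ℝ × ℝ} {R : ℕ} {w : ℝ} {v : ℤ × ℤ} :
    v ∈ tube y R w ↔ v ∈ box R ∧ |cr y (em v)| ≤ w := by
  unfold tube
  rw [Finset.mem_filter]

lemma mem_box {R : ℕ} {v : ℤ × ℤ} :
    v ∈ box R ↔ (-(R : ℤ) ≤ v.1 ∧ v.1 ≤ R) ∧ (-(R : ℤ) ≤ v.2 ∧ v.2 ≤ R) := by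
  unfold box
  rw [Finset.mem_product, Finset.mem_Icc, Finset.mem_Icc]

lemma card_tube {y : ℝ × ℝ} (hy : y.1 ^ 2 + y.2 ^ 2 = 1) (R : ℕ) {w : ℝ} (hw : 0 ≤ w) :
    ((tube y R w).card : ℝ) ≤ (2 * R + 1) * (4 * w + 1) := by
  classical
  set I := Finset.Icc (-(R : ℤ)) R with hI
  have hIc : (I.card : ℝ) = 2 * R + 1 := card_I R
  rcases le_or_gt (1 / 2) |y.1| with h1 | h1
  · have hsub : tube y R w ⊆ I.biUnion (fun i =>
        (I.filter (fun k : ℤ => |(k : ℝ) * y.1 - i * y.2| ≤ w)).image (fun k => (i, k))) := by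
      intro v hv
      rw [mem_tube, box, Finset.mem_product] at hv
      rw [Finset.mem_biUnion]
      refine ⟨v.1, hv.1.1, ?_⟩
      rw [Finset.mem_image]
      exact ⟨v.2, Finset.mem_filter.2 ⟨hv.1.2, hv.2⟩, rfl⟩
    have h2 : ((tube y R w).card : ℝ) ≤ ∑ i ∈ I, (4 * w + 1) := by
      have h3 := (Finset.card_le_card hsub).trans Finset.card_biUnion_le
      have h4 : ((tube y R w).card : ℝ) ≤ ((∑ i ∈ I, (Finset.image (fun k => (i, k))
        (I.filter (fun k : ℤ => |(k : ℝ) * y.1 - i * y.2| ≤ w))).card : ℕ) : ℝ) := by exact_mod_cast h3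
      refine h4.trans ?_
      push_cast
      apply Finset.sum_le_sum
      intro i _
      refine le_trans (by exact_mod_cast Finset.card_image_le) (card_strip R y.1 _ w h1 hw)
    rw [Finset.sum_const, nsmul_eq_mul, hIc] at h2
    exact h2
  · have h1' : 1 / 2 ≤ |y.2| := by
      by_contra hc
      push Not at hc
      have e1 := abs_nonneg y.1
      have e2 := abs_nonneg y.2
      rw [← sq_abs y.1, ← sq_abs y.2] at hy
      nlinarith
    have hsub : tube y R w ⊆ I.biUnion (fun i =>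
        (I.filter (fun k : ℤ => |(k : ℝ) * y.2 - i * y.1| ≤ w)).image (fun k => (k, i))) := by
      intro v hv
      rw [mem_tube, box, Finset.mem_product] at hv
      rw [Finset.mem_biUnion]
      refine ⟨v.2, hv.1.2, ?_⟩
      rw [Finset.mem_image]
      refine ⟨v.1, Finset.mem_filter.2 ⟨hv.1.1, ?_⟩, rfl⟩
      rw [abs_sub_comm]
      exact hv.2
    have h2 : ((tube y R w).card : ℝ) ≤ ∑ i ∈ I, (4 * w + 1) := by
      have h3 := (Finset.card_le_card hsub).trans Finset.card_biUnion_le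
      have h4 : ((tube y R w).card : ℝ) ≤ ((∑ i ∈ I, (Finset.image (fun k => (k, i))
        (I.filter (fun k : ℤ => |(k : ℝ) * y.2 - i * y.1| ≤ w))).card : ℕ) : ℝ) := by exact_mod_cast h3
      refine h4.trans ?_
      push_cast
      apply Finset.sum_le_sum
      intro i _
      refine le_trans (by exact_mod_cast Finset.card_image_le) (card_strip R y.2 _ w h1' hw)
    rw [Finset.sum_const, nsmul_eq_mul, hIc] at h2
    exact h2

lemma eu_sq {y : ℝ × ℝ} (hy : y.1 ^ 2 + y.2 ^ 2 = 1) (x : ℝ × ℝ) :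
    eu x ^ 2 = al y x ^ 2 + cr y x ^ 2 := by
  unfold eu al cr
  rw [Real.sq_sqrt (by positivity)]
  linear_combination (-(x.1 ^ 2 + x.2 ^ 2)) * hy

lemma eu_nonneg (x : ℝ × ℝ) : 0 ≤ eu x := Real.sqrt_nonneg _

lemma adj_cases {a b : ℤ × ℤ} (h : Adj a b) : b - a ∈ nb := by
  obtain ⟨a1, a2⟩ := a
  obtain ⟨b1, b2⟩ := b
  unfold Adj at h
  simp only at h
  simp only [nb, Prod.mk_sub_mk, Finset.mem_insert, Finset.mem_singleton, Prod.mk.injEq]
  rcases abs_cases (b1 - a1) with h1 | h1 <;> rcases abs_cases (b2 - a2) with h2 | h2 <;> omega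

lemma nb_card : nb.card ≤ 4 := Finset.card_le_four

lemma nb_step {s : ℤ × ℤ} (hs : s ∈ nb) : |s.1| ≤ 1 ∧ |s.2| ≤ 1 ∧ |s.1| + |s.2| = 1 := by
  simp only [nb, Finset.mem_insert, Finset.mem_singleton] at hs
  rcases hs with rfl | rfl | rfl | rfl <;> decide

lemma y_le {y : ℝ × ℝ} (hy : y.1 ^ 2 + y.2 ^ 2 = 1) : |y.1| ≤ 1 ∧ |y.2| ≤ 1 := by
  constructor
  · rw [← sq_le_one_iff_abs_le_one]
    nlinarith [sq_nonneg y.2]
  · rw [← sq_le_one_iff_abs_le_one]
    nlinarith [sq_nonneg y.1]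

lemma step_le {y : ℝ × ℝ} (hy : y.1 ^ 2 + y.2 ^ 2 = 1) {a s : ℤ × ℤ} (hs : s ∈ nb) :
    |al y (em (a + s)) - al y (em a)| ≤ 1 ∧ |cr y (em (a + s)) - cr y (em a)| ≤ 1 := by
  obtain ⟨h1, h2⟩ := y_le hy
  rw [abs_le] at h1 h2
  simp only [nb, Finset.mem_insert, Finset.mem_singleton] at hs
  unfold al cr Pool.Agent.N662.FP.em
  rcases hs with rfl | rfl | rfl | rfl <;> constructor <;> rw [abs_le] <;> constructor <;>
    simp <;> linarith

theorem t_GEO : Run7.h943.FP.S_GEO := by
  classical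
  intro y hy
  refine ⟨?_, ?_, ?_, ?_, eu_sq hy, ?_⟩
  · intro R w hw
    have hedge : ∀ a ∈ tube y R w, ∀ b, Adj a b → s(a, b) ∈ edg (tube y R w) := by
      intro a ha b hab
      unfold edg
      rw [Finset.mem_image]
      refine ⟨(a, b - a), Finset.mem_product.2 ⟨ha, adj_cases hab⟩, ?_⟩
      show s(a, a + (b - a)) = s(a, b)
      rw [add_sub_cancel]
    refine ⟨?_, ?_, ?_, fun a ha b _ hab => hedge a ha b hab, ?_, ?_⟩
    · rw [mem_tube, mem_box]
      refine ⟨by simp, ?_⟩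
      unfold cr Pool.Agent.N662.FP.em
      simpa using hw
    · have h1 : (edg (tube y R w)).card ≤ (tube y R w).card * 4 := by
        unfold edg
        refine Finset.card_image_le.trans ?_
        rw [Finset.card_product]
        exact Nat.mul_le_mul_left _ nb_card
      have h2 : ((edg (tube y R w)).card : ℝ) ≤ (tube y R w).card * 4 := by exact_mod_cast h1
      have h3 := card_tube hy R hw
      linarith
    · have h1 : (bd (tube y R w)).card ≤ (tube y R w).card * 4 := by
        unfold bd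
        refine (Finset.card_filter_le _ _).trans (Finset.card_image_le.trans ?_)
        rw [Finset.card_product]
        exact Nat.mul_le_mul_left _ nb_card
      have h2 : ((bd (tube y R w)).card : ℝ) ≤ (tube y R w).card * 4 := by exact_mod_cast h1
      have h3 : (tube y R w).card ≤ (box R).card := by
        unfold tube
        exact Finset.card_filter_le _ _
      have h4 : ((box R).card : ℝ) = (2 * R + 1) ^ 2 := by
        unfold box
        rw [Finset.card_product]
        push_cast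
        rw [card_I]
        ring
      have h5 : ((tube y R w).card : ℝ) ≤ (2 * R + 1) ^ 2 := by
        rw [← h4]
        exact_mod_cast h3
      linarith
    · intro a ha z hz haz
      unfold bd
      rw [Finset.mem_filter, Finset.mem_image]
      refine ⟨⟨(a, z - a), Finset.mem_product.2 ⟨ha, adj_cases haz⟩, ?_⟩, hz⟩
      show a + (z - a) = z
      rw [add_sub_cancel]
    · intro z hz
      unfold bd at hz
      rw [Finset.mem_filter, Finset.mem_image] at hz
      obtain ⟨⟨⟨a, s⟩, has, rfl⟩, hz⟩ := hz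
      rw [Finset.mem_product] at has
      obtain ⟨ha, hs⟩ := has
      dsimp only at ha hs hz ⊢
      have ha' := mem_tube.1 ha
      have hs1 := nb_step hs
      refine ⟨?_, ?_⟩
      · have h1 := mem_box.1 ha'.1
        rw [mem_box]
        have e1 := abs_le.1 hs1.1
        have e2 := abs_le.1 hs1.2.1
        simp only [Prod.fst_add, Prod.snd_add] at e1 e2 ⊢
        push_cast
        omega
      · by_cases hb : a + s ∈ box R
        · right
          refine ⟨?_, ?_⟩
          · by_contra hc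
            exact hz (mem_tube.2 ⟨hb, not_lt.1 hc⟩)
          · have h1 := (step_le (a := a) hy hs).2
            have h2 : cr y (em (a + s)) = cr y (em a) + (cr y (em (a + s)) - cr y (em a)) := by ring
            rw [h2]
            refine (abs_add_le _ _).trans ?_
            linarith [ha'.2]
        · exact Or.inl hb
  · intro a b
    have ha := eu_sq hy a
    have hb := eu_sq hy b
    have ha0 := eu_nonneg a
    have hb0 := eu_nonneg b
    rw [Real.sqrt_le_left (by positivity)]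
    set A := al y a
    set B := al y b
    set C := |cr y a| with hC
    set E := |cr y b| with hE
    have ha' : eu a ^ 2 = A ^ 2 + C ^ 2 := by rw [ha, hC, sq_abs]
    have hb' : eu b ^ 2 = B ^ 2 + E ^ 2 := by rw [hb, hE, sq_abs]
    have h1 : A * B + C * E ≤ eu a * eu b := by
      apply le_of_sq_le_sq _ (by positivity)
      have h2 : (eu a * eu b) ^ 2 = (A ^ 2 + C ^ 2) * (B ^ 2 + E ^ 2) := by
        rw [mul_pow, ha', hb']
      rw [h2]
      nlinarith [sq_nonneg (A * E - B * C)]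
    nlinarith
  · intro I w hw hwI
    have hI : 0 < I := by linarith
    apply Real.le_sqrt_of_sq_le
    have h1 : (I + w ^ 2 / (3 * I)) ^ 2 = I ^ 2 + 2 / 3 * w ^ 2 + w ^ 2 * (w ^ 2 / I ^ 2) / 9 := by
      field_simp
      ring
    have h2 : w ^ 2 / I ^ 2 ≤ 1 := by
      rw [div_le_one (by positivity)]
      exact pow_le_pow_left₀ hw.le hwI 2
    rw [h1]
    have h3 : w ^ 2 * (w ^ 2 / I ^ 2) ≤ w ^ 2 * 1 := mul_le_mul_of_nonneg_left h2 (by positivity)
    nlinarith [sq_nonneg w]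
  · intro a b hab
    have h1 := step_le (a := a) hy (adj_cases hab)
    rw [add_sub_cancel] at h1
    exact h1
  · intro x
    have h1 := eu_sq hy x
    have h0 := eu_nonneg x
    have h2 : eu x ^ 2 = x.1 ^ 2 + x.2 ^ 2 := Real.sq_sqrt (by positivity)
    refine ⟨?_, ?_, ?_, ?_, ?_⟩
    · apply abs_le_of_sq_le_sq _ h0
      rw [h1]
      nlinarith [sq_nonneg (cr y x)]
    · apply abs_le_of_sq_le_sq _ h0
      rw [h1]
      nlinarith [sq_nonneg (al y x)]
    · apply abs_le_of_sq_le_sq _ h0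
      rw [h2]
      nlinarith [sq_nonneg x.2]
    · apply abs_le_of_sq_le_sq _ h0
      rw [h2]
      nlinarith [sq_nonneg x.1]
    · apply le_of_sq_le_sq _ (by positivity)
      rw [h2]
      have := mul_nonneg (abs_nonneg x.1) (abs_nonneg x.2)
      nlinarith [sq_abs x.1, sq_abs x.2]

end Pool.Agent.Run7.h216.FP
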