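import Pool.Agent.Run7.h943.FP.Stm

/-! MP_de94ef_pr (helper943), piece LIM (helper216). -/

set_option autoImplicit false
open MeasureTheory ProbabilityTheory Filter Set
open scoped ENNReal Pointwise Topology

namespace Pool.Agent.Run7.h216.FP

open Pool.Agent.N662.FP Run7.h943.FP

/-- Almost sure convergence to a constant: the probability of being close is at least one half. -/
theorem half_of_ae {Ω : Type} [MeasureSpace Ω] [IsProbabilityMeasure (volume : Measure Ω)]
    (f : ℕ → Ω → ℝ) (b ε : ℝ) (hε : 0 < ε)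
    (hf : ∀ n, AEStronglyMeasurable (f n) (volume : Measure Ω))
    (h : ∀ᵐ ω ∂(volume : Measure Ω), Tendsto (fun n => f n ω) atTop (𝓝 b)) :
    ∀ᶠ n in atTop, 1 / 2 ≤ (volume : Measure Ω).real {ω | f n ω < b + ε} := by
  have h1 := tendstoInMeasure_of_tendsto_ae (g := fun _ => b) hf h
  rw [tendstoInMeasure_iff_measureReal_dist] at h1
  filter_upwards [(h1 ε hε).eventually (gt_mem_nhds (show (0 : ℝ) < 1 / 2 by norm_num))] with n hn
  have h2 : (univ : Set Ω) ⊆ {ω | f n ω < b + ε} ∪ {ω | ε ≤ dist (f n ω) b} := by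
    intro ω _
    rcases lt_or_ge (f n ω) (b + ε) with h3 | h3
    · exact Or.inl h3
    · right
      show ε ≤ dist (f n ω) b
      rw [Real.dist_eq]
      exact le_trans (by linarith) (le_abs_self _)
  have h3 := (measureReal_mono (μ := (volume : Measure Ω)) h2).trans (measureReal_union_le _ _)
  rw [probReal_univ] at h3
  linarith

theorem t_LIM : S_LIM := by
  intro Ω _ _ X hX μ hTC y m hmin η hη
  have hy := hmin.unit
  have hy1 : |y.1| ≤ 1 := by
    rw [← sq_le_one_iff_abs_le_one]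
    nlinarith [sq_nonneg y.2]
  have hy2 : |y.2| ≤ 1 := by
    rw [← sq_le_one_iff_abs_le_one]
    nlinarith [sq_nonneg y.1]
  have hm := hmin.pos
  set C0 : ℝ := μ (1, 0) + μ (0, 1) with hC0
  have hC0' : 0 ≤ C0 := add_nonneg (apply_nonneg _ _) (apply_nonneg _ _)
  -- the lattice point `z`
  obtain ⟨k, hk⟩ := exists_nat_ge (max 3 (4 * (C0 + 2 * m + η) / η))
  have hk3 : (3 : ℝ) ≤ k := le_trans (le_max_left _ _) hk
  have hk4 : 4 * (C0 + 2 * m + η) ≤ k * η := by
    have h1 := le_trans (le_max_right _ _) hk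
    rwa [div_le_iff₀ hη] at h1
  let z : ℤ × ℤ := (⌊(k : ℝ) * y.1⌋, ⌊(k : ℝ) * y.2⌋)
  have hz1 : |(z.1 : ℝ) - k * y.1| ≤ 1 := by
    rw [abs_le]
    have e1 := Int.floor_le ((k : ℝ) * y.1)
    have e2 := Int.lt_floor_add_one ((k : ℝ) * y.1)
    constructor <;> linarith
  have hz2 : |(z.2 : ℝ) - k * y.2| ≤ 1 := by
    rw [abs_le]
    have e1 := Int.floor_le ((k : ℝ) * y.2)
    have e2 := Int.lt_floor_add_one ((k : ℝ) * y.2)
    constructor <;> linarith
  set a : ℝ := al y (Pool.Agent.N662.FP.em z) with ha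
  set b : ℝ := μ (Pool.Agent.N662.FP.em z) with hb
  have hak : (k : ℝ) - 2 ≤ a := by
    have h1 : a = k + ((z.1 : ℝ) - k * y.1) * y.1 + ((z.2 : ℝ) - k * y.2) * y.2 := by
      rw [ha]
      unfold al Pool.Agent.N662.FP.em
      show (z.1 : ℝ) * y.1 + (z.2 : ℝ) * y.2 = _
      linear_combination (k : ℝ) * hy
    have h2 : |((z.1 : ℝ) - k * y.1) * y.1| ≤ 1 := by
      rw [abs_mul]
      exact mul_le_one₀ hz1 (abs_nonneg _) hy1
    have h3 : |((z.2 : ℝ) - k * y.2) * y.2| ≤ 1 := by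
      rw [abs_mul]
      exact mul_le_one₀ hz2 (abs_nonneg _) hy2
    rw [abs_le] at h2 h3
    rw [h1]
    linarith
  have ha0 : 0 < a := by linarith
  have hbk : b ≤ k * m + C0 := by
    have h1 : Pool.Agent.N662.FP.em z = (k : ℝ) • y + (((z.1 : ℝ) - k * y.1) • ((1, 0) : ℝ × ℝ) +
        ((z.2 : ℝ) - k * y.2) • ((0, 1) : ℝ × ℝ)) := by
      unfold Pool.Agent.N662.FP.em
      apply Prod.ext
      · simp
      · simp
    rw [hb, h1]
    refine (map_add_le_add μ _ _).trans ?_
    rw [map_smul_eq_mul, hmin.eq, Real.norm_of_nonneg (by positivity)]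
    refine add_le_add le_rfl ((map_add_le_add μ _ _).trans ?_)
    rw [map_smul_eq_mul, map_smul_eq_mul, Real.norm_eq_abs, Real.norm_eq_abs, hC0]
    exact add_le_add (mul_le_of_le_one_left (apply_nonneg _ _) hz1)
      (mul_le_of_le_one_left (apply_nonneg _ _) hz2)
  have hba : b ≤ (m + η / 4) * a := by
    have h1 : k * m + C0 ≤ (m + η / 4) * (k - 2) := by nlinarith
    have h2 : (m + η / 4) * ((k : ℝ) - 2) ≤ (m + η / 4) * a :=
      mul_le_mul_of_nonneg_left hak (by positivity)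
    linarith
  -- convergence
  have hev := half_of_ae (fun (n : ℕ) ω => D (env X ω) 0 ((n : ℤ) • z) / (n : ℝ)) b (η / 4 * a)
    (by positivity) (fun n => ((cINT Ω X hX 0 ((n : ℤ) • z)).div_const (n : ℝ)).aestronglyMeasurable) (hTC z)
  rw [eventually_atTop] at hev
  obtain ⟨n₀, hn₀⟩ := hev
  filter_upwards [eventually_ge_atTop (max ((n₀ : ℝ) * a) (max 1 (a * (m + η / 2) / (η / 2))))]
    with N hN
  have hN1 : (n₀ : ℝ) * a ≤ N := le_trans (le_max_left _ _) hN
  have hN2 : 1 ≤ N := le_trans (le_trans (le_max_left _ _) (le_max_right _ _)) hN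
  have hN3 : a * (m + η / 2) ≤ N * (η / 2) := by
    have h1 := le_trans (le_trans (le_max_right _ _) (le_max_right _ _)) hN
    rwa [div_le_iff₀ (by positivity)] at h1
  set j : ℕ := ⌈N / a⌉₊ with hj
  have hj1 : N / a ≤ j := Nat.le_ceil _
  have hj2 : (j : ℝ) < N / a + 1 := Nat.ceil_lt_add_one (by positivity)
  have hj0 : (0 : ℝ) < j := lt_of_lt_of_le (by positivity) hj1
  have hjn : n₀ ≤ j := by
    have h1 : (n₀ : ℝ) ≤ N / a := by rwa [le_div_iff₀ ha0]
    exact_mod_cast h1.trans hj1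
  refine ⟨(j : ℤ) • z, ?_, ?_⟩
  · have h1 : al y (Pool.Agent.N662.FP.em ((j : ℤ) • z)) = j * a := by
      rw [ha]
      unfold al Pool.Agent.N662.FP.em
      simp only [Prod.smul_fst, Prod.smul_snd, smul_eq_mul, Int.cast_mul, Int.cast_natCast]
      ring
    rw [h1]
    rwa [div_le_iff₀ ha0] at hj1
  · refine (hn₀ j hjn).trans (measureReal_mono ?_)
    intro ω hω
    have h1 : D (env X ω) 0 ((j : ℤ) • z) / (j : ℝ) < b + η / 4 * a := hω
    show D (env X ω) 0 ((j : ℤ) • z) < (m + η) * N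
    rw [div_lt_iff₀ hj0] at h1
    refine h1.trans_le ?_
    have h2 : b + η / 4 * a ≤ a * (m + η / 2) := by nlinarith
    calc (b + η / 4 * a) * j ≤ a * (m + η / 2) * j := mul_le_mul_of_nonneg_right h2 hj0.le
      _ ≤ a * (m + η / 2) * (N / a + 1) := mul_le_mul_of_nonneg_left hj2.le (by positivity)
      _ = (m + η / 2) * N + a * (m + η / 2) := by field_simp
      _ ≤ (m + η / 2) * N + N * (η / 2) := by linarith
      _ = (m + η) * N := by ring

end Pool.Agent.Run7.h216.FP
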